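import Pool.Agent.PWT.Words
import Pool.Agent.Helper88.ScTorsion

/-!
# Representations of rank two with roots of unity as eigenvalues on the words of shortest paths
-/

set_option autoImplicit false

namespace Pool.Agent.PWT

open Matrix

variable {V G : Type*} [Group G]

/-- The trace and the determinant in terms of the eigenvalues. -/
theorem exists_eigenvalues (A : Matrix (Fin 2) (Fin 2) ℂ) : ∃ z w : ℂ,
    A.charpoly.IsRoot z ∧ A.charpoly.IsRoot w ∧ A.trace = z + w ∧ A.det = z * w := by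
  have hcard : Multiset.card A.charpoly.roots = 2 := by
    rw [IsAlgClosed.card_roots_eq_natDegree, Matrix.charpoly_natDegree_eq_dim, Fintype.card_fin]
  obtain ⟨z, w, hzw⟩ := Multiset.card_eq_two.1 hcard
  refine ⟨z, w, ?_, ?_, ?_, ?_⟩
  · exact Polynomial.isRoot_of_mem_roots (by rw [hzw]; simp)
  · exact Polynomial.isRoot_of_mem_roots (by rw [hzw]; simp)
  · rw [Matrix.trace_eq_sum_roots_charpoly, hzw]
    simp
  · rw [Matrix.det_eq_prod_roots_charpoly, hzw]
    simp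

/-- The eigenvalues of the words of shortest paths are roots of unity of order dividing `N`. -/
def Cond (T : SimpleGraph V) (c : V → G) (N : ℕ) (ρ : G →* GL (Fin 2) ℂ) : Prop :=
  ∀ (m : ℕ) (p : ℕ → V), IsShortest T m p → ∀ z : ℂ,
    (ρ (word c m p) : Matrix (Fin 2) (Fin 2) ℂ).charpoly.IsRoot z → z ^ N = 1

theorem finite_and_integral [Finite V] {T : SimpleGraph V} (hT : T.Connected) (c : V → G)
    (hc : Subgroup.closure (Set.range c) = ⊤) {N : ℕ} (hN : 0 < N) :
    {χ : G → ℂ | ∃ ρ : G →* GL (Fin 2) ℂ, Cond T c N ρ ∧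
      χ = fun x => (ρ x : Matrix (Fin 2) (Fin 2) ℂ).trace}.Finite ∧
    ∀ ρ : G →* GL (Fin 2) ℂ, Cond T c N ρ → ∀ x : G,
      IsIntegral ℤ (ρ x : Matrix (Fin 2) (Fin 2) ℂ).trace := by
  let I := {ρ : G →* GL (Fin 2) ℂ // Cond T c N ρ}
  let ρ : I → G →* GL (Fin 2) ℂ := Subtype.val
  have hcond : ∀ i : I, Cond T c N (ρ i) := fun i => i.2
  have hdet : ∀ (i : I) (x : G), (ρ i x : Matrix (Fin 2) (Fin 2) ℂ).det ^ N = 1 := by
    intro i x
    have hx : x ∈ Subgroup.closure (Set.range c) := by rw [hc]; exact Subgroup.mem_top x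
    induction hx using Subgroup.closure_induction with
    | mem y hy =>
      obtain ⟨v, rfl⟩ := hy
      obtain ⟨z, w, hz, hw, -, h⟩ := exists_eigenvalues (ρ i (c v) : Matrix (Fin 2) (Fin 2) ℂ)
      have h1 := hcond i 0 (fun _ => v) (isShortest_zero _)
      rw [word_zero] at h1
      rw [h, mul_pow, h1 z hz, h1 w hw, one_mul]
    | one => rw [map_one, Units.val_one, Matrix.det_one, one_pow]
    | mul y z _ _ hy hz => rw [map_mul, Units.val_mul, Matrix.det_mul, mul_pow, hy, hz, one_mul]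
    | inv y _ hy =>
      have h1 : (ρ i y⁻¹ : Matrix (Fin 2) (Fin 2) ℂ).det *
          (ρ i y : Matrix (Fin 2) (Fin 2) ℂ).det = 1 := by
        rw [← Matrix.det_mul, ← Units.val_mul, ← map_mul, inv_mul_cancel, map_one, Units.val_one,
          Matrix.det_one]
      have h2 := congrArg (fun z : ℂ => z ^ N) h1
      simp only [mul_pow, hy, mul_one, one_pow] at h2
      exact h2
  have hD : ∀ y : G, De ρ y ∈ tame I := by
    intro y
    refine ⟨(finite_roots hN).subset ?_, fun i => isIntegral_of_pow_eq_one hN (hdet i y)⟩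
    rintro _ ⟨i, rfl⟩
    exact hdet i y
  have hρ : ∀ (m : ℕ) (p : ℕ → V), IsShortest T m p → Tr ρ (word c m p) ∈ tame I := by
    intro m p hp
    constructor
    · refine ((finite_roots hN).image2 (· + ·) (finite_roots hN)).subset ?_
      rintro _ ⟨i, rfl⟩
      obtain ⟨z, w, hz, hw, h, -⟩ :=
        exists_eigenvalues (ρ i (word c m p) : Matrix (Fin 2) (Fin 2) ℂ)
      exact ⟨z, hcond i m p hp z hz, w, hcond i m p hp w hw, h.symm⟩
    · intro i
      obtain ⟨z, w, hz, hw, h, -⟩ :=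
        exists_eigenvalues (ρ i (word c m p) : Matrix (Fin 2) (Fin 2) ℂ)
      show IsIntegral ℤ (ρ i (word c m p) : Matrix (Fin 2) (Fin 2) ℂ).trace
      rw [h]
      exact (isIntegral_of_pow_eq_one hN (hcond i m p hp z hz)).add
        (isIntegral_of_pow_eq_one hN (hcond i m p hp w hw))
  have key := Tr_mem ρ hD hT c hc hρ
  constructor
  · refine (finite_char ρ c hc fun x => (key x).1).subset ?_
    rintro χ ⟨θ, hθ, rfl⟩
    exact ⟨⟨θ, hθ⟩, rfl⟩
  · intro θ hθ x
    exact (key x).2 ⟨θ, hθ⟩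

/-- The roots of unity among the eigenvalues of a finitely generated linear group have bounded
order. -/
theorem exists_order [Finite V] (c : V → G) (hc : Subgroup.closure (Set.range c) = ⊤)
    (ρ : G →* GL (Fin 2) ℂ) : ∃ N : ℕ, 0 < N ∧ ∀ (x : G) (z : ℂ),
      (ρ x : Matrix (Fin 2) (Fin 2) ℂ).charpoly.IsRoot z → (∃ n : ℕ, 0 < n ∧ z ^ n = 1) →
        z ^ N = 1 := by
  have hfg : (MonoidHom.range ρ).FG := by
    rw [Subgroup.fg_iff]
    refine ⟨ρ '' Set.range c, ?_, (Set.finite_range c).image _⟩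
    rw [← MonoidHom.map_closure, hc, MonoidHom.range_eq_map]
  obtain ⟨F, _, _, π, hπ⟩ := Helper12.Sc.exists_finite_quotient 2 (MonoidHom.range ρ) hfg
  refine ⟨Nat.card F, Nat.card_pos, fun x z hz hn => ?_⟩
  obtain ⟨n, hn, hzn⟩ := hn
  have hmem : ρ x ∈ MonoidHom.range ρ := ⟨x, rfl⟩
  refine hπ (⟨ρ x, hmem⟩ ^ Nat.card F) ?_ (z ^ Nat.card F) ?_ n hn ?_
  · rw [map_pow, pow_card_eq_one']
  · rw [← Matrix.mem_spectrum_iff_isRoot_charpoly] at hz ⊢
    have h1 := spectrum.pow_mem_pow (ρ x : Matrix (Fin 2) (Fin 2) ℂ) (Nat.card F) hz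
    have h2 : (((⟨ρ x, hmem⟩ : MonoidHom.range ρ) ^ Nat.card F : MonoidHom.range ρ) :
        GL (Fin 2) ℂ) = (ρ x) ^ Nat.card F := rfl
    rw [h2, Units.val_pow_eq_pow_val]
    exact h1
  · rw [← pow_mul, mul_comm, pow_mul, hzn, one_pow]

/-- The orbit of the character is finite, and all traces are algebraic integers. -/
theorem finite_orbit [Finite V] {T : SimpleGraph V} (hT : T.Connected) (c : V → G)
    (hc : Subgroup.closure (Set.range c) = ⊤) (Γ : Subgroup (MulAut G)) (ρ : G →* GL (Fin 2) ℂ)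
    (hρ : ∀ γ ∈ Γ, ∀ (m : ℕ) (p : ℕ → V), IsShortest T m p → ∀ z : ℂ,
      (ρ (γ (word c m p)) : Matrix (Fin 2) (Fin 2) ℂ).charpoly.IsRoot z →
        ∃ n : ℕ, 0 < n ∧ z ^ n = 1) :
    {χ : G → ℂ | ∃ γ ∈ Γ, χ = fun x => (ρ (γ x) : Matrix (Fin 2) (Fin 2) ℂ).trace}.Finite ∧
    ∀ x : G, IsIntegral ℤ (ρ x : Matrix (Fin 2) (Fin 2) ℂ).trace := by
  obtain ⟨N, hN, h⟩ := exists_order c hc ρ
  obtain ⟨h1, h2⟩ := finite_and_integral hT c hc hN
  have h3 : ∀ γ ∈ Γ, Cond T c N (ρ.comp (γ : G ≃* G).toMonoidHom) := by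
    intro γ hγ m p hp z hz
    exact h (γ (word c m p)) z hz (hρ γ hγ m p hp z hz)
  constructor
  · refine h1.subset ?_
    rintro χ ⟨γ, hγ, rfl⟩
    exact ⟨_, h3 γ hγ, rfl⟩
  · exact h2 ρ (h3 1 Γ.one_mem)

end Pool.Agent.PWT
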