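import Pool.Agent.PWT.Fricke

/-!
# Functions with finitely many values, all of them algebraic integers

They form a ring of functions which is closed under roots of monic quadratic polynomials.
-/

set_option autoImplicit false

namespace Pool.Agent.PWT

variable {I : Type*}

/-- The ring of functions with finitely many values, all of them algebraic integers. -/
def tame (I : Type*) : Subring (I → ℂ) where
  carrier := {f | (Set.range f).Finite ∧ ∀ i, IsIntegral ℤ (f i)}
  mul_mem' := by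
    rintro f g ⟨hf, hf'⟩ ⟨hg, hg'⟩
    refine ⟨(hf.image2 (· * ·) hg).subset ?_, fun i => (hf' i).mul (hg' i)⟩
    rintro _ ⟨i, rfl⟩
    exact ⟨f i, ⟨i, rfl⟩, g i, ⟨i, rfl⟩, rfl⟩
  one_mem' := by
    refine ⟨(Set.finite_singleton (1 : ℂ)).subset ?_, fun i => isIntegral_one⟩
    rintro _ ⟨i, rfl⟩
    rfl
  add_mem' := by
    rintro f g ⟨hf, hf'⟩ ⟨hg, hg'⟩
    refine ⟨(hf.image2 (· + ·) hg).subset ?_, fun i => (hf' i).add (hg' i)⟩
    rintro _ ⟨i, rfl⟩
    exact ⟨f i, ⟨i, rfl⟩, g i, ⟨i, rfl⟩, rfl⟩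
  zero_mem' := by
    refine ⟨(Set.finite_singleton (0 : ℂ)).subset ?_, fun i => isIntegral_zero⟩
    rintro _ ⟨i, rfl⟩
    rfl
  neg_mem' := by
    rintro f ⟨hf, hf'⟩
    refine ⟨(hf.image Neg.neg).subset ?_, fun i => (hf' i).neg⟩
    rintro _ ⟨i, rfl⟩
    exact ⟨f i, ⟨i, rfl⟩, rfl⟩

theorem mem_tame {f : I → ℂ} :
    f ∈ tame I ↔ (Set.range f).Finite ∧ ∀ i, IsIntegral ℤ (f i) := Iff.rfl

/-- A root of a monic quadratic polynomial with algebraic integers as coefficients. -/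
theorem isIntegral_root {z a b : ℂ} (ha : IsIntegral ℤ a) (hb : IsIntegral ℤ b)
    (h : z ^ 2 + a * z + b = 0) : IsIntegral ℤ z := by
  let A := integralClosure ℤ ℂ
  let a' : A := ⟨a, ha⟩
  let b' : A := ⟨b, hb⟩
  have h1 : IsIntegral A z := by
    refine ⟨Polynomial.X ^ 2 + Polynomial.C a' * Polynomial.X + Polynomial.C b', ?_, ?_⟩
    · monicity!
    · rw [Polynomial.eval₂_add, Polynomial.eval₂_add, Polynomial.eval₂_mul, Polynomial.eval₂_pow,
        Polynomial.eval₂_X, Polynomial.eval₂_C, Polynomial.eval₂_C]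
      exact h
  exact isIntegral_trans z h1

theorem root_mem_tame {f p q : I → ℂ} (hp : p ∈ tame I) (hq : q ∈ tame I)
    (h : f ^ 2 + p * f + q = 0) : f ∈ tame I := by
  have h' : ∀ i, f i ^ 2 + p i * f i + q i = 0 := fun i => congrFun h i
  refine ⟨?_, fun i => isIntegral_root (hp.2 i) (hq.2 i) (h' i)⟩
  have hfin : (⋃ a ∈ Set.range p, ⋃ b ∈ Set.range q, {z : ℂ | z ^ 2 + a * z + b = 0}).Finite := by
    refine hp.1.biUnion fun a _ => hq.1.biUnion fun b _ => ?_
    rcases Set.eq_empty_or_nonempty {z : ℂ | z ^ 2 + a * z + b = 0} with h0 | ⟨w, hw⟩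
    · rw [h0]
      exact Set.finite_empty
    · refine (Set.toFinite ({w, -a - w} : Set ℂ)).subset ?_
      intro z hz
      have hz' : z ^ 2 + a * z + b = 0 := hz
      have hw' : w ^ 2 + a * w + b = 0 := hw
      have h2 : (z - w) * (z - (-a - w)) = 0 := by linear_combination hz' - hw'
      rcases mul_eq_zero.1 h2 with h3 | h3
      · exact Or.inl (sub_eq_zero.1 h3)
      · exact Or.inr (sub_eq_zero.1 h3)
  refine hfin.subset ?_
  rintro _ ⟨i, rfl⟩
  simp only [Set.mem_iUnion]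
  exact ⟨p i, ⟨i, rfl⟩, q i, ⟨i, rfl⟩, h' i⟩

/-- The roots of unity of order dividing `N`. -/
theorem finite_roots {N : ℕ} (hN : 0 < N) : {z : ℂ | z ^ N = 1}.Finite := by
  refine (Polynomial.nthRootsFinset N (1 : ℂ)).finite_toSet.subset ?_
  intro z hz
  exact Finset.mem_coe.2 ((Polynomial.mem_nthRootsFinset hN (1 : ℂ)).2 hz)

theorem isIntegral_of_pow_eq_one {N : ℕ} (hN : 0 < N) {z : ℂ} (hz : z ^ N = 1) :
    IsIntegral ℤ z := by
  refine IsIntegral.of_pow hN ?_
  rw [hz]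
  exact isIntegral_one

end Pool.Agent.PWT
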