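import Pool.Agent.PWT.Path
import Pool.Agent.PWT.Tame

/-!
# The traces of a family of representations of rank two

If the traces of a family of representations of rank two are tame on the words of shortest paths,
and the determinants are tame, then all traces are tame.
-/

set_option autoImplicit false

namespace Pool.Agent.PWT

open Matrix

variable {V G I : Type*} [Group G]

/-- the trace, as a function of the representation -/
def Tr (ρ : I → G →* GL (Fin 2) ℂ) (x : G) (i : I) : ℂ :=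
  (ρ i x : Matrix (Fin 2) (Fin 2) ℂ).trace

/-- the determinant, as a function of the representation -/
def De (ρ : I → G →* GL (Fin 2) ℂ) (x : G) (i : I) : ℂ :=
  (ρ i x : Matrix (Fin 2) (Fin 2) ℂ).det

variable (ρ : I → G →* GL (Fin 2) ℂ)

theorem De_mul (x y : G) : De ρ (x * y) = De ρ x * De ρ y := by
  funext i
  have h : (ρ i (x * y) : Matrix (Fin 2) (Fin 2) ℂ).det =
      (ρ i x : Matrix (Fin 2) (Fin 2) ℂ).det * (ρ i y : Matrix (Fin 2) (Fin 2) ℂ).det := by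
    rw [map_mul, Units.val_mul, Matrix.det_mul]
  exact h

theorem De_one : De ρ 1 = 1 := by
  funext i
  have h : (ρ i 1 : Matrix (Fin 2) (Fin 2) ℂ).det = 1 := by
    rw [map_one, Units.val_one, Matrix.det_one]
  exact h

theorem De_inv_mul (x : G) : De ρ x⁻¹ * De ρ x = 1 := by
  rw [← De_mul, inv_mul_cancel, De_one]

theorem Tr_one : Tr ρ 1 = 2 := by
  funext i
  have h : (ρ i 1 : Matrix (Fin 2) (Fin 2) ℂ).trace = 2 := by
    rw [map_one, Units.val_one, Matrix.trace_one]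
    simp
  exact h

theorem Tr_comm (x y : G) : Tr ρ (x * y) = Tr ρ (y * x) := by
  funext i
  have h : (ρ i (x * y) : Matrix (Fin 2) (Fin 2) ℂ).trace =
      (ρ i (y * x) : Matrix (Fin 2) (Fin 2) ℂ).trace := by
    rw [map_mul, map_mul, Units.val_mul, Units.val_mul, Matrix.trace_mul_comm]
  exact h

theorem Tr_sq (x : G) : Tr ρ (x * x) = Tr ρ x ^ 2 - 2 * De ρ x := by
  funext i
  have h : (ρ i (x * x) : Matrix (Fin 2) (Fin 2) ℂ).trace =
      (ρ i x : Matrix (Fin 2) (Fin 2) ℂ).trace ^ 2 -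
        2 * (ρ i x : Matrix (Fin 2) (Fin 2) ℂ).det := by
    rw [map_mul, Units.val_mul]
    simp only [Matrix.trace_fin_two, Matrix.det_fin_two, Matrix.mul_apply, Fin.sum_univ_two]
    ring
  exact h

theorem det_mul_trace (A M : Matrix (Fin 2) (Fin 2) ℂ) :
    A.det * M.trace = A.trace * (A * M).trace - (A * (A * M)).trace := by
  simp only [Matrix.trace_fin_two, Matrix.det_fin_two, Matrix.mul_apply, Fin.sum_univ_two]
  ring

/-- The trace of `x⁻¹ y`. -/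
theorem Tr_inv_mul (x y : G) : Tr ρ (x⁻¹ * y) = De ρ x⁻¹ * (Tr ρ x * Tr ρ y - Tr ρ (x * y)) := by
  have h1 : De ρ x * Tr ρ (x⁻¹ * y) = Tr ρ x * Tr ρ y - Tr ρ (x * y) := by
    funext i
    have h2 := det_mul_trace (ρ i x : Matrix (Fin 2) (Fin 2) ℂ)
      (ρ i (x⁻¹ * y) : Matrix (Fin 2) (Fin 2) ℂ)
    rw [← Units.val_mul, ← Units.val_mul, ← map_mul, ← map_mul, mul_inv_cancel_left] at h2
    exact h2
  rw [← h1, ← mul_assoc, De_inv_mul, one_mul]

theorem De_mem_inv {x : G} (h : ∀ y : G, De ρ y ∈ tame I) : De ρ x⁻¹ ∈ tame I := h x⁻¹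

/-- The trace of a product of three is tame if the traces of the subproducts are. -/
theorem triple (hD : ∀ y : G, De ρ y ∈ tame I) {a b c : G} (ha : Tr ρ a ∈ tame I)
    (hb : Tr ρ b ∈ tame I) (hc : Tr ρ c ∈ tame I) (hab : Tr ρ (a * b) ∈ tame I)
    (hbc : Tr ρ (b * c) ∈ tame I) (hac : Tr ρ (a * c) ∈ tame I) :
    Tr ρ (a * b * c) ∈ tame I := by
  have ka := hD a
  have kb := hD b
  have kc := hD c
  have e : Tr ρ (a * b * c) ^ 2 +
      (-(Tr ρ a * Tr ρ (b * c) + Tr ρ b * Tr ρ (a * c) + Tr ρ c * Tr ρ (a * b) -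
        Tr ρ a * Tr ρ b * Tr ρ c)) * Tr ρ (a * b * c) +
      (Tr ρ a ^ 2 * De ρ b * De ρ c + Tr ρ b ^ 2 * De ρ a * De ρ c +
        Tr ρ c ^ 2 * De ρ a * De ρ b + Tr ρ (a * b) ^ 2 * De ρ c + Tr ρ (a * c) ^ 2 * De ρ b +
        Tr ρ (b * c) ^ 2 * De ρ a - Tr ρ a * Tr ρ b * Tr ρ (a * b) * De ρ c -
        Tr ρ a * Tr ρ c * Tr ρ (a * c) * De ρ b - Tr ρ b * Tr ρ c * Tr ρ (b * c) * De ρ a +
        Tr ρ (a * b) * Tr ρ (b * c) * Tr ρ (a * c) - 4 * De ρ a * De ρ b * De ρ c) = 0 := by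
    funext i
    have h := quadratic_triple (ρ i a : Matrix (Fin 2) (Fin 2) ℂ)
      (ρ i b : Matrix (Fin 2) (Fin 2) ℂ) (ρ i c : Matrix (Fin 2) (Fin 2) ℂ)
    simp only [← Units.val_mul, ← map_mul] at h
    rw [sub_eq_add_neg, ← neg_mul] at h
    exact h
  refine root_mem_tame ?_ ?_ e
  · exact neg_mem (sub_mem (add_mem (add_mem (mul_mem ha hbc) (mul_mem hb hac)) (mul_mem hc hab))
      (mul_mem (mul_mem ha hb) hc))
  · have h4 : (4 : I → ℂ) ∈ tame I := natCast_mem (tame I) 4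
    exact sub_mem (add_mem (sub_mem (sub_mem (sub_mem (add_mem (add_mem (add_mem (add_mem
      (add_mem (mul_mem (mul_mem (pow_mem ha 2) kb) kc) (mul_mem (mul_mem (pow_mem hb 2) ka) kc))
      (mul_mem (mul_mem (pow_mem hc 2) ka) kb)) (mul_mem (pow_mem hab 2) kc))
      (mul_mem (pow_mem hac 2) kb)) (mul_mem (pow_mem hbc 2) ka))
      (mul_mem (mul_mem (mul_mem ha hb) hab) kc)) (mul_mem (mul_mem (mul_mem ha hc) hac) kb))
      (mul_mem (mul_mem (mul_mem hb hc) hbc) ka)) (mul_mem (mul_mem hab hbc) hac))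
      (mul_mem (mul_mem (mul_mem h4 ka) kb) kc)

/-- The trace of `a c` is tame if the traces of the subproducts of `a b c` are. -/
theorem pair (hD : ∀ y : G, De ρ y ∈ tame I) {a b c : G} (ha : Tr ρ a ∈ tame I)
    (hb : Tr ρ b ∈ tame I) (hc : Tr ρ c ∈ tame I) (hab : Tr ρ (a * b) ∈ tame I)
    (hbc : Tr ρ (b * c) ∈ tame I) (habc : Tr ρ (a * b * c) ∈ tame I) :
    Tr ρ (a * c) ∈ tame I := by
  have ka := hD a
  have kb := hD b
  have kc := hD c
  have kb' := hD b⁻¹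
  have e0 : De ρ b * Tr ρ (a * c) ^ 2 + (Tr ρ (a * b) * Tr ρ (b * c) -
        Tr ρ a * Tr ρ c * De ρ b - Tr ρ b * Tr ρ (a * b * c)) * Tr ρ (a * c) +
      (Tr ρ (a * b * c) ^ 2 - (Tr ρ a * Tr ρ (b * c) + Tr ρ c * Tr ρ (a * b) -
        Tr ρ a * Tr ρ b * Tr ρ c) * Tr ρ (a * b * c) +
      (Tr ρ a ^ 2 * De ρ b * De ρ c + Tr ρ b ^ 2 * De ρ a * De ρ c +
        Tr ρ c ^ 2 * De ρ a * De ρ b + Tr ρ (a * b) ^ 2 * De ρ c + Tr ρ (b * c) ^ 2 * De ρ a -
        Tr ρ a * Tr ρ b * Tr ρ (a * b) * De ρ c - Tr ρ b * Tr ρ c * Tr ρ (b * c) * De ρ a -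
        4 * De ρ a * De ρ b * De ρ c)) = 0 := by
    funext i
    have h := quadratic_pair (ρ i a : Matrix (Fin 2) (Fin 2) ℂ)
      (ρ i b : Matrix (Fin 2) (Fin 2) ℂ) (ρ i c : Matrix (Fin 2) (Fin 2) ℂ)
    simp only [← Units.val_mul, ← map_mul] at h
    exact h
  have e : Tr ρ (a * c) ^ 2 + De ρ b⁻¹ * (Tr ρ (a * b) * Tr ρ (b * c) -
        Tr ρ a * Tr ρ c * De ρ b - Tr ρ b * Tr ρ (a * b * c)) * Tr ρ (a * c) +
      De ρ b⁻¹ * (Tr ρ (a * b * c) ^ 2 - (Tr ρ a * Tr ρ (b * c) + Tr ρ c * Tr ρ (a * b) -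
        Tr ρ a * Tr ρ b * Tr ρ c) * Tr ρ (a * b * c) +
      (Tr ρ a ^ 2 * De ρ b * De ρ c + Tr ρ b ^ 2 * De ρ a * De ρ c +
        Tr ρ c ^ 2 * De ρ a * De ρ b + Tr ρ (a * b) ^ 2 * De ρ c + Tr ρ (b * c) ^ 2 * De ρ a -
        Tr ρ a * Tr ρ b * Tr ρ (a * b) * De ρ c - Tr ρ b * Tr ρ c * Tr ρ (b * c) * De ρ a -
        4 * De ρ a * De ρ b * De ρ c)) = 0 := by
    linear_combination (De ρ b⁻¹) * e0 - Tr ρ (a * c) ^ 2 * De_inv_mul ρ b
  refine root_mem_tame ?_ ?_ e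
  · exact mul_mem kb' (sub_mem (sub_mem (mul_mem hab hbc) (mul_mem (mul_mem ha hc) kb))
      (mul_mem hb habc))
  · have h4 : (4 : I → ℂ) ∈ tame I := natCast_mem (tame I) 4
    refine mul_mem kb' (add_mem (sub_mem (pow_mem habc 2) (mul_mem (sub_mem (add_mem
      (mul_mem ha hbc) (mul_mem hc hab)) (mul_mem (mul_mem ha hb) hc)) habc)) ?_)
    exact sub_mem (sub_mem (sub_mem (add_mem (add_mem (add_mem
      (add_mem (mul_mem (mul_mem (pow_mem ha 2) kb) kc) (mul_mem (mul_mem (pow_mem hb 2) ka) kc))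
      (mul_mem (mul_mem (pow_mem hc 2) ka) kb)) (mul_mem (pow_mem hab 2) kc))
      (mul_mem (pow_mem hbc 2) ka))
      (mul_mem (mul_mem (mul_mem ha hb) hab) kc)) (mul_mem (mul_mem (mul_mem hb hc) hbc) ka))
      (mul_mem (mul_mem (mul_mem h4 ka) kb) kc)

end Pool.Agent.PWT
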