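import Mathlib

/-!
# Shortest paths and their words
-/

set_option autoImplicit false

namespace Pool.Agent.PWT

variable {V G : Type*}

/-- `p 0, ..., p m` is a shortest path in the graph `T`. -/
def IsShortest (T : SimpleGraph V) (m : ℕ) (p : ℕ → V) : Prop :=
  (∀ i < m, T.Adj (p i) (p (i + 1))) ∧ T.dist (p 0) (p m) = m

/-- The product `c (p 0) * ... * c (p m)`. -/
def word [Monoid G] (c : V → G) (m : ℕ) (p : ℕ → V) : G :=
  ((List.range (m + 1)).map fun i => c (p i)).prod

end Pool.Agent.PWT
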