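import Mathlib

/-!
# Traces of products of matrices of size two

The Fricke relations for three matrices of size two over a commutative ring, and the formula for the
trace of a product of four matrices.
-/

set_option autoImplicit false

namespace Pool.Agent.PWT

open Matrix

variable {R : Type*} [CommRing R]

theorem trace_add_trace (a b c : Matrix (Fin 2) (Fin 2) R) :
    (a * b * c).trace + (a * c * b).trace =
      a.trace * (b * c).trace + b.trace * (a * c).trace + c.trace * (a * b).trace -
        a.trace * b.trace * c.trace := by
  simp only [Matrix.trace_fin_two, Matrix.mul_apply, Fin.sum_univ_two]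
  ring

theorem trace_mul_trace (a b c : Matrix (Fin 2) (Fin 2) R) :
    (a * b * c).trace * (a * c * b).trace =
      a.trace ^ 2 * b.det * c.det + b.trace ^ 2 * a.det * c.det + c.trace ^ 2 * a.det * b.det +
        (a * b).trace ^ 2 * c.det + (a * c).trace ^ 2 * b.det + (b * c).trace ^ 2 * a.det -
        a.trace * b.trace * (a * b).trace * c.det - a.trace * c.trace * (a * c).trace * b.det -
        b.trace * c.trace * (b * c).trace * a.det +
        (a * b).trace * (b * c).trace * (a * c).trace - 4 * a.det * b.det * c.det := by
  simp only [Matrix.trace_fin_two, Matrix.det_fin_two, Matrix.mul_apply, Fin.sum_univ_two]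
  ring

/-- The trace of the product of four matrices. -/
theorem two_mul_trace (a b c d : Matrix (Fin 2) (Fin 2) R) :
    2 * (a * b * c * d).trace =
      a.trace * (b * c * d).trace + b.trace * (a * c * d).trace + c.trace * (a * b * d).trace +
        d.trace * (a * b * c).trace + (a * b).trace * (c * d).trace -
        (a * c).trace * (b * d).trace + (a * d).trace * (b * c).trace -
        a.trace * b.trace * (c * d).trace - a.trace * d.trace * (b * c).trace -
        b.trace * c.trace * (a * d).trace - c.trace * d.trace * (a * b).trace +
        a.trace * b.trace * c.trace * d.trace := by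
  simp only [Matrix.trace_fin_two, Matrix.mul_apply, Fin.sum_univ_two]
  ring

/-- The trace of a product of three is a root of a monic quadratic polynomial. -/
theorem quadratic_triple (a b c : Matrix (Fin 2) (Fin 2) R) :
    (a * b * c).trace ^ 2 - (a.trace * (b * c).trace + b.trace * (a * c).trace +
        c.trace * (a * b).trace - a.trace * b.trace * c.trace) * (a * b * c).trace +
      (a.trace ^ 2 * b.det * c.det + b.trace ^ 2 * a.det * c.det + c.trace ^ 2 * a.det * b.det +
        (a * b).trace ^ 2 * c.det + (a * c).trace ^ 2 * b.det + (b * c).trace ^ 2 * a.det -
        a.trace * b.trace * (a * b).trace * c.det - a.trace * c.trace * (a * c).trace * b.det -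
        b.trace * c.trace * (b * c).trace * a.det +
        (a * b).trace * (b * c).trace * (a * c).trace - 4 * a.det * b.det * c.det) = 0 := by
  rw [← trace_mul_trace, ← trace_add_trace]
  ring

/-- The trace of the product of the first and the last of three matrices is a root of a quadratic
polynomial with leading coefficient the determinant of the middle one. -/
theorem quadratic_pair (a b c : Matrix (Fin 2) (Fin 2) R) :
    b.det * (a * c).trace ^ 2 + ((a * b).trace * (b * c).trace - a.trace * c.trace * b.det -
        b.trace * (a * b * c).trace) * (a * c).trace +
      ((a * b * c).trace ^ 2 - (a.trace * (b * c).trace + c.trace * (a * b).trace -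
        a.trace * b.trace * c.trace) * (a * b * c).trace +
      (a.trace ^ 2 * b.det * c.det + b.trace ^ 2 * a.det * c.det + c.trace ^ 2 * a.det * b.det +
        (a * b).trace ^ 2 * c.det + (b * c).trace ^ 2 * a.det -
        a.trace * b.trace * (a * b).trace * c.det -
        b.trace * c.trace * (b * c).trace * a.det - 4 * a.det * b.det * c.det)) = 0 := by
  linear_combination quadratic_triple a b c

end Pool.Agent.PWT
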