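import Pool.Agent.PWT.Defs

/-!
# Shortest paths and their words
-/

set_option autoImplicit false

namespace Pool.Agent.PWT

variable {V G : Type*}

section Word

variable [Monoid G] (c : V → G)

theorem word_zero (p : ℕ → V) : word c 0 p = c (p 0) := by
  simp [word]

theorem word_succ_right (m : ℕ) (p : ℕ → V) :
    word c (m + 1) p = word c m p * c (p (m + 1)) := by
  unfold word
  rw [List.range_succ, List.map_append, List.prod_append]
  simp

theorem word_succ_left (m : ℕ) (p : ℕ → V) :
    word c (m + 1) p = c (p 0) * word c m (fun i => p (i + 1)) := by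
  unfold word
  rw [List.range_succ_eq_map, List.map_cons, List.prod_cons, List.map_map]
  rfl

end Word

variable {T : SimpleGraph V} {m : ℕ} {p : ℕ → V}

theorem dist_le_of_adj (h : ∀ i < m, T.Adj (p i) (p (i + 1))) (i j : ℕ) (hij : i + j ≤ m) :
    T.Reachable (p i) (p (i + j)) ∧ T.dist (p i) (p (i + j)) ≤ j := by
  induction j with
  | zero => exact ⟨SimpleGraph.Reachable.refl _, by simp⟩
  | succ j ih =>
    obtain ⟨h1, h2⟩ := ih (by omega)
    have h3 := h (i + j) (by omega)
    obtain ⟨w, hw⟩ := h1.exists_walk_length_eq_dist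
    refine ⟨h1.trans h3.reachable, ?_⟩
    have h4 := SimpleGraph.dist_le (w.concat h3)
    rw [SimpleGraph.Walk.length_concat, hw] at h4
    exact h4.trans (by omega)

theorem IsShortest.dist_eq (h : IsShortest T m p) (i j : ℕ) (hij : i + j ≤ m) :
    T.dist (p i) (p (i + j)) = j := by
  obtain ⟨h1, h2⟩ := dist_le_of_adj h.1 0 i (by omega)
  obtain ⟨h3, h4⟩ := dist_le_of_adj h.1 i j hij
  obtain ⟨h5, h6⟩ := dist_le_of_adj h.1 (i + j) (m - (i + j)) (by omega)
  rw [zero_add] at h1 h2
  rw [show i + j + (m - (i + j)) = m by omega] at h5 h6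
  obtain ⟨w1, hw1⟩ := h1.exists_walk_length_eq_dist
  obtain ⟨w2, hw2⟩ := h3.exists_walk_length_eq_dist
  obtain ⟨w3, hw3⟩ := h5.exists_walk_length_eq_dist
  have h7 := SimpleGraph.dist_le ((w1.append w2).append w3)
  rw [SimpleGraph.Walk.length_append, SimpleGraph.Walk.length_append, hw1, hw2, hw3, h.2] at h7
  omega

theorem IsShortest.init (h : IsShortest T (m + 1) p) : IsShortest T m p := by
  refine ⟨fun i hi => h.1 i (by omega), ?_⟩
  have := h.dist_eq 0 m (by omega)
  rwa [zero_add] at this

theorem IsShortest.tail (h : IsShortest T (m + 1) p) : IsShortest T m (fun i => p (i + 1)) := by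
  refine ⟨fun i hi => h.1 (i + 1) (by omega), ?_⟩
  have := h.dist_eq 1 m (by omega)
  rwa [add_comm 1 m] at this

theorem isShortest_zero (p : ℕ → V) : IsShortest T 0 p :=
  ⟨fun i hi => absurd hi (by omega), SimpleGraph.dist_self⟩

theorem exists_isShortest (hT : T.Connected) (u v : V) :
    ∃ (m : ℕ) (p : ℕ → V), IsShortest T m p ∧ p 0 = u ∧ p m = v := by
  obtain ⟨w, hw⟩ := hT.exists_walk_length_eq_dist u v
  refine ⟨w.length, w.getVert, ⟨fun i hi => w.adj_getVert_succ hi, ?_⟩, w.getVert_zero,
    w.getVert_length⟩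
  rw [w.getVert_zero, w.getVert_length, hw]

end Pool.Agent.PWT
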