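import Pool.Agent.PWT.Core

/-!
# All traces are tame, and there are finitely many characters
-/

set_option autoImplicit false

namespace Pool.Agent.PWT

open Matrix

variable {V G I : Type*} [Group G]

/-- The traces of the products of two generators are tame. -/
theorem pairs (ρ : I → G →* GL (Fin 2) ℂ) (hD : ∀ y : G, De ρ y ∈ tame I) {T : SimpleGraph V}
    (hT : T.Connected) (c : V → G)
    (hρ : ∀ (m : ℕ) (p : ℕ → V), IsShortest T m p → Tr ρ (word c m p) ∈ tame I) (u v : V) :
    Tr ρ (c u * c v) ∈ tame I := by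
  have hs : ∀ v, Tr ρ (c v) ∈ tame I := fun v => by
    have := hρ 0 (fun _ => v) (isShortest_zero _)
    rwa [word_zero] at this
  obtain ⟨m, p, hp, rfl, rfl⟩ := exists_isShortest hT u v
  rcases m with _ | _ | m
  · rw [Tr_sq]
    have h2 : (2 : I → ℂ) ∈ tame I := natCast_mem (tame I) 2
    exact sub_mem (pow_mem (hs _) 2) (mul_mem h2 (hD _))
  · have := hρ 1 p hp
    rwa [word_succ_right, word_zero] at this
  · have h1 := hp.init
    have h2 := hp.tail
    have h3 := h1.tail
    have e1 : word c (m + 1) p = c (p 0) * word c m (fun i => p (i + 1)) := word_succ_left c m p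
    have e2 : word c (m + 1) (fun i => p (i + 1)) =
        word c m (fun i => p (i + 1)) * c (p (m + 1 + 1)) :=
      word_succ_right c m (fun i => p (i + 1))
    have e3 : word c (m + 1 + 1) p =
        c (p 0) * word c m (fun i => p (i + 1)) * c (p (m + 1 + 1)) := by
      rw [word_succ_left, e2, mul_assoc]
    refine pair ρ hD (hs _) (hρ m _ h3) (hs _) ?_ ?_ ?_
    · rw [← e1]
      exact hρ _ _ h1
    · rw [← e2]
      exact hρ _ _ h2
    · rw [← e3]
      exact hρ _ _ hp

/-- the generators and their inverses -/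
def letter (c : V → G) (l : V × Bool) : G := if l.2 then c l.1 else (c l.1)⁻¹

theorem exists_word (c : V → G) (hc : Subgroup.closure (Set.range c) = ⊤) (x : G) :
    ∃ l : List (V × Bool), x = (l.map (letter c)).prod := by
  have h1 : x ∈ (FreeGroup.lift c).range := by
    rw [FreeGroup.range_lift_eq_closure, hc]
    exact Subgroup.mem_top x
  obtain ⟨w, rfl⟩ := h1
  classical
  refine ⟨w.toWord, ?_⟩
  conv_lhs => rw [← FreeGroup.mk_toWord (x := w), FreeGroup.lift_mk]
  congr 1
  apply List.map_congr_left
  rintro ⟨k, b⟩ _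
  cases b <;> rfl

/-- All traces are tame. -/
theorem Tr_mem (ρ : I → G →* GL (Fin 2) ℂ) (hD : ∀ y : G, De ρ y ∈ tame I) {T : SimpleGraph V}
    (hT : T.Connected) (c : V → G) (hc : Subgroup.closure (Set.range c) = ⊤)
    (hρ : ∀ (m : ℕ) (p : ℕ → V), IsShortest T m p → Tr ρ (word c m p) ∈ tame I) (x : G) :
    Tr ρ x ∈ tame I := by
  have hs : ∀ v, Tr ρ (c v) ∈ tame I := fun v => by
    have := hρ 0 (fun _ => v) (isShortest_zero _)
    rwa [word_zero] at this
  have hp := pairs ρ hD hT c hρ
  have h2 : (2 : I → ℂ) ∈ tame I := natCast_mem (tame I) 2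
  have hinv : ∀ x y : G, Tr ρ x ∈ tame I → Tr ρ y ∈ tame I → Tr ρ (x * y) ∈ tame I →
      Tr ρ (x⁻¹ * y) ∈ tame I := by
    intro x y hx hy hxy
    rw [Tr_inv_mul]
    exact mul_mem (hD _) (sub_mem (mul_mem hx hy) hxy)
  have hinv1 : ∀ x : G, Tr ρ x ∈ tame I → Tr ρ x⁻¹ ∈ tame I := by
    intro x hx
    have := hinv x 1 hx (by rw [Tr_one]; exact h2) (by rwa [mul_one])
    rwa [mul_one] at this
  have hs' : ∀ l : V × Bool, Tr ρ (letter c l) ∈ tame I := by
    rintro ⟨v, b⟩
    cases b
    · exact hinv1 _ (hs v)
    · exact hs v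
  have hp' : ∀ l l' : V × Bool, Tr ρ (letter c l * letter c l') ∈ tame I := by
    rintro ⟨u, b⟩ ⟨v, b'⟩
    have h3 : Tr ρ ((c u)⁻¹ * c v) ∈ tame I := hinv _ _ (hs u) (hs v) (hp u v)
    have h4 : Tr ρ (c u * (c v)⁻¹) ∈ tame I := by
      rw [Tr_comm]
      exact hinv _ _ (hs v) (hs u) (hp v u)
    have h5 : Tr ρ ((c u)⁻¹ * (c v)⁻¹) ∈ tame I := hinv _ _ (hs u) (hinv1 _ (hs v)) h4
    cases b <;> cases b'
    · exact h5
    · exact h3
    · exact h4
    · exact hp u v
  have main : ∀ (n : ℕ) (l : List (V × Bool)), l.length = n →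
      Tr ρ (l.map (letter c)).prod ∈ tame I := by
    intro n
    induction n using Nat.strong_induction_on with
    | _ n ih =>
      intro l hl
      match l, hl with
      | [], _ =>
        rw [List.map_nil, List.prod_nil, Tr_one]
        exact h2
      | [a], _ =>
        rw [List.map_cons, List.map_nil, List.prod_cons, List.prod_nil, mul_one]
        exact hs' a
      | [a, b], _ =>
        rw [List.map_cons, List.map_cons, List.map_nil, List.prod_cons, List.prod_cons,
          List.prod_nil, mul_one]
        exact hp' a b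
      | a :: b :: d :: l', hl =>
        simp only [List.length_cons] at hl
        have k1 := ih (l'.length + 1) (by omega) (d :: l') (by simp)
        have k2 := ih (l'.length + 2) (by omega) (b :: d :: l') (by simp)
        have k3 := ih (l'.length + 2) (by omega) (a :: d :: l') (by simp)
        rw [List.map_cons, List.prod_cons] at k2 k3
        have := triple ρ hD (hs' a) (hs' b) k1 (hp' a b) k2 k3
        rwa [List.map_cons, List.prod_cons, List.map_cons, List.prod_cons, ← mul_assoc]
  obtain ⟨l, rfl⟩ := exists_word c hc x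
  exact main _ l rfl

/-- Two characters which agree on the products of at most three letters are equal. -/
theorem char_eq (c : V → G) (hc : Subgroup.closure (Set.range c) = ⊤)
    (ρ₁ ρ₂ : G →* GL (Fin 2) ℂ)
    (h : ∀ l : List (V × Bool), l.length ≤ 3 →
      (ρ₁ (l.map (letter c)).prod : Matrix (Fin 2) (Fin 2) ℂ).trace =
        (ρ₂ (l.map (letter c)).prod : Matrix (Fin 2) (Fin 2) ℂ).trace) (x : G) :
    (ρ₁ x : Matrix (Fin 2) (Fin 2) ℂ).trace = (ρ₂ x : Matrix (Fin 2) (Fin 2) ℂ).trace := by
  have main : ∀ (n : ℕ) (l : List (V × Bool)), l.length = n →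
      (ρ₁ (l.map (letter c)).prod : Matrix (Fin 2) (Fin 2) ℂ).trace =
        (ρ₂ (l.map (letter c)).prod : Matrix (Fin 2) (Fin 2) ℂ).trace := by
    intro n
    induction n using Nat.strong_induction_on with
    | _ n ih =>
      intro l hl
      match l, hl with
      | [], _ => exact h _ (by simp)
      | [a], _ => exact h _ (by simp)
      | [a, b], _ => exact h _ (by simp)
      | [a, b, d], _ => exact h _ (by simp)
      | a :: b :: d :: e :: l', hl =>
        simp only [List.length_cons] at hl
        have ka := ih 1 (by omega) [a] rfl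
        have kb := ih 1 (by omega) [b] rfl
        have kd := ih 1 (by omega) [d] rfl
        have ke := ih (l'.length + 1) (by omega) (e :: l') (by simp)
        have kab := ih 2 (by omega) [a, b] rfl
        have kad := ih 2 (by omega) [a, d] rfl
        have kae := ih (l'.length + 2) (by omega) (a :: e :: l') (by simp)
        have kbd := ih 2 (by omega) [b, d] rfl
        have kbe := ih (l'.length + 2) (by omega) (b :: e :: l') (by simp)
        have kde := ih (l'.length + 2) (by omega) (d :: e :: l') (by simp)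
        have kbde := ih (l'.length + 3) (by omega) (b :: d :: e :: l') (by simp)
        have kade := ih (l'.length + 3) (by omega) (a :: d :: e :: l') (by simp)
        have kabe := ih (l'.length + 3) (by omega) (a :: b :: e :: l') (by simp)
        have kabd := ih 3 (by omega) [a, b, d] rfl
        have e1 := two_mul_trace (ρ₁ (letter c a) : Matrix (Fin 2) (Fin 2) ℂ)
          (ρ₁ (letter c b)) (ρ₁ (letter c d)) (ρ₁ ((e :: l').map (letter c)).prod)
        have e2 := two_mul_trace (ρ₂ (letter c a) : Matrix (Fin 2) (Fin 2) ℂ)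
          (ρ₂ (letter c b)) (ρ₂ (letter c d)) (ρ₂ ((e :: l').map (letter c)).prod)
        simp only [← Units.val_mul, ← map_mul] at e1 e2
        simp only [List.map_cons, List.map_nil, List.prod_cons, List.prod_nil, mul_one,
          mul_assoc] at ka kb kd ke kab kad kae kbd kbe kde kbde kade kabe kabd e1 e2 ⊢
        rw [ka, kb, kd, ke, kab, kad, kae, kbd, kbe, kde, kbde, kade, kabe, kabd] at e1
        linear_combination (e1 - e2) / 2
  obtain ⟨l, rfl⟩ := exists_word c hc x
  exact main _ l rfl

/-- If all traces take finitely many values then there are finitely many characters. -/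
theorem finite_char [Finite V] (ρ : I → G →* GL (Fin 2) ℂ) (c : V → G)
    (hc : Subgroup.closure (Set.range c) = ⊤) (h : ∀ x : G, (Set.range (Tr ρ x)).Finite) :
    {χ : G → ℂ | ∃ i : I, χ = fun x => (ρ i x : Matrix (Fin 2) (Fin 2) ℂ).trace}.Finite := by
  have hW : {l : List (V × Bool) | l.length ≤ 3}.Finite := List.finite_length_le _ 3
  have : Finite {l : List (V × Bool) | l.length ≤ 3} := hW
  have hfin : (Set.univ.pi fun l : {l : List (V × Bool) | l.length ≤ 3} =>
      Set.range (Tr ρ ((l : List (V × Bool)).map (letter c)).prod)).Finite :=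
    Set.Finite.pi fun l => h _
  refine Set.Finite.of_finite_image (f := fun (χ : G → ℂ)
    (l : {l : List (V × Bool) | l.length ≤ 3}) => χ ((l : List (V × Bool)).map (letter c)).prod)
    (hfin.subset ?_) ?_
  · rintro _ ⟨_, ⟨i, rfl⟩, rfl⟩ l _
    exact ⟨i, rfl⟩
  · rintro _ ⟨i, rfl⟩ _ ⟨j, rfl⟩ hij
    funext x
    refine char_eq c hc (ρ i) (ρ j) (fun l hl => ?_) x
    exact congrFun hij ⟨l, hl⟩

end Pool.Agent.PWT
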